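import Pool.Agent.MVK.Stmts

set_option autoImplicit false

/-! Row KM of the block MVK: the letter `y` of `bw P Q m` can be gathered. -/

namespace Pool.Agent.MVK.H98

open Pool.Agent.Helper14_MV Pool.Agent.Helper2_MV Pool.Agent.MVD Pool.Agent.MVK

theorem not_mem_zs (D : List ℕ) : 0 ∉ zs D := by
  intro h
  unfold zs at h
  rw [List.mem_map] at h
  obtain ⟨e, _, he⟩ := h
  omega

/-- the word without additional letters `y` -/
theorem wg_eq {P Q M : List ℕ} {m : ℕ} {a b : ℕ → ℕ} {f : ℕ} (hPQ : (P ++ Q).Perm (List.range m))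
    (hf : f = 0) (hab : ∀ e < m, a (e + 1) = 0 ∧ b (e + 1) = 0) : Wg P Q M a b f = Wm P Q M := by
  unfold Wg Wm Rl Bw
  rw [hf, List.replicate_zero, List.append_nil]
  refine List.flatMap_congr fun r hr => ?_
  have hlt : r = 0 ∨ ∃ e < m, r = e + 1 := by
    rw [List.mem_append, List.mem_cons, List.mem_map, List.mem_map] at hr
    have hm : ∀ e, e ∈ P ++ Q → e < m := fun e he => List.mem_range.1 (hPQ.mem_iff.1 he)
    rcases hr with ⟨e, he, rfl⟩ | rfl | ⟨e, he, rfl⟩
    · exact Or.inr ⟨e, hm e (List.mem_append_left _ he), rfl⟩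
    · exact Or.inl rfl
    · exact Or.inr ⟨e, hm e (List.mem_append_right _ he), rfl⟩
  rcases hlt with rfl | ⟨e, he, rfl⟩
  · rfl
  · beta_reduce
    rw [if_neg (Nat.succ_ne_zero e), if_neg (Nat.succ_ne_zero e), (hab e he).1, (hab e he).2]
    simp

theorem count_places (S M : List ℕ) :
    (Bw (S.map (fun e => e + 1)) (fun r => if r = 0 then M else [3 * (r - 1) + 1])).count 0 = 0 := by
  rw [List.count_eq_zero]
  intro h
  unfold Bw at h
  rw [List.mem_flatMap] at h
  obtain ⟨r, hr, h⟩ := h
  rw [List.mem_map] at hr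
  obtain ⟨e, _, rfl⟩ := hr
  beta_reduce at h
  rw [if_neg (Nat.succ_ne_zero e), List.mem_append, List.mem_singleton, List.mem_singleton] at h
  omega

theorem wm_split (P Q M : List ℕ) :
    Wm P Q M = Bw (P.map (fun e => e + 1)) (fun r => if r = 0 then M else [3 * (r - 1) + 1]) ++
      (M ++ [2] ++ Bw (Q.map (fun e => e + 1))
        (fun r => if r = 0 then M else [3 * (r - 1) + 1])) := by
  unfold Wm Bw
  rw [List.flatMap_append, List.flatMap_cons]
  rfl

/-- **KM** -/
theorem km (hABS : AbsStmt) (hPN2 : Pn2Stmt) (hSHK : ShkStmt) (hKS1 : Ks1Stmt) (hKB1 : Kb1Stmt)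
    (hKB2 : Kb2Stmt) (hKM1 : Km1Stmt) : KmStmt := by
  intro β hM hC hI m
  induction m using Nat.strong_induction_on with
  | _ m ih =>
    intro P Q hPQ
    obtain ⟨habs1, habs2⟩ := hABS β
    rcases Nat.eq_zero_or_pos m with hm0 | hm1
    · subst hm0
      have h1 : P ++ Q = [] := by
        have := hPQ.eq_nil
        simpa using this
      obtain ⟨rfl, rfl⟩ := List.append_eq_nil_iff.1 h1
      exact habs1 hC [] [2] 0
    by_cases hm2 : m = 1
    · subst hm2
      have h1 : P ++ Q = [0] := by
        have h2 : (P ++ Q).Perm [0] := hPQ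
        exact List.perm_singleton.1 h2
      obtain ⟨k1, k2⟩ := hKM1 β hM hC hI
      cases P with
      | nil =>
        rw [List.nil_append] at h1
        subst h1
        exact k1
      | cons x P =>
        rw [List.cons_append, List.cons.injEq] at h1
        obtain ⟨rfl, h2⟩ := h1
        obtain ⟨rfl, rfl⟩ := List.append_eq_nil_iff.1 h2
        exact k2
    · obtain ⟨w', hw, hn⟩ := hPN2 β hM hC hI P Q m hm1 hPQ
      obtain ⟨M, D', a, b, f, hw', hD, hMf⟩ := hSHK β hC hI P Q m hPQ w' hw
      subst hw'
      have hks := hKS1 β hC m hm1 (fun n hn P Q h => ih n hn P Q h) P Q M D' a b f hPQ hD hMf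
      rcases hks with h1 | ⟨h1, _, _, h4⟩
      · exact habs2 0 _ _ hw h1
      rcases h1 with h1 | h1
      · refine habs2 0 _ _ hw (hKB1 β hC P Q M m a b f hPQ ?_ hw h1 (h4 (by omega)))
        intro c hc
        by_cases hc0 : c = 0
        · exact Or.inl hc0
        · right
          have h5 : c ∈ zs D' := by
            rw [← hMf, List.mem_filter]
            exact ⟨hc, decide_eq_true hc0⟩
          unfold zs at h5
          rw [List.mem_map] at h5
          obtain ⟨e, _, rfl⟩ := h5
          omega
      · subst h1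
        by_cases hadd : 1 ≤ f ∨ ∃ e < m, 1 ≤ a (e + 1) ∨ 1 ≤ b (e + 1)
        · exact hKB2 β hC P Q D' m a b f hPQ hD hw hadd
        exfalso
        push Not at hadd
        obtain ⟨hf, hab⟩ := hadd
        apply hn
        rw [wg_eq hPQ (by omega) (fun e he => by
          have := hab e he
          omega), wm_split]
        constructor
        · rw [List.count_append, List.count_append, List.count_append, count_places, count_places,
            List.count_cons_self, List.count_append, List.count_eq_zero_of_not_mem (not_mem_zs D')]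
          rfl
        · intro e he
          refine ⟨Bw (P.map (fun e => e + 1))
              (fun r => if r = 0 then 0 :: (zs D' ++ [0]) else [3 * (r - 1) + 1]), zs D',
            [2] ++ Bw (Q.map (fun e => e + 1))
              (fun r => if r = 0 then 0 :: (zs D' ++ [0]) else [3 * (r - 1) + 1]), ?_, ?_⟩
          · simp only [List.append_assoc, List.cons_append, List.nil_append]
          · unfold zs
            rw [List.mem_map]
            exact ⟨e, hD.mem_iff.2 (List.mem_range.2 he), rfl⟩

end Pool.Agent.MVK.H98
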